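import Mathlib

set_option autoImplicit false

open MvPolynomial

namespace Pool.Agent.Lib.P81a4d5

variable {K : Type} [Field K]

/-- the linear form with coefficient vector `a` -/
noncomputable def lin {l : ℕ} (a : Fin l → K) : MvPolynomial (Fin l) K :=
  ∑ i, C (a i) * X i

lemma lin_isHomogeneous {l : ℕ} (a : Fin l → K) : (lin a).IsHomogeneous 1 := by
  apply IsHomogeneous.sum
  intro i _
  exact isHomogeneous_C_mul_X (a i) i

lemma coeff_lin {l : ℕ} (a : Fin l → K) (i : Fin l) :
    coeff (Finsupp.single i 1) (lin a) = a i := by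
  classical
  rw [lin, coeff_sum]
  simp only [coeff_C_mul, coeff_X]
  rw [Finset.sum_eq_single i]
  · simp
  · intro j _ hj
    rw [if_neg]
    · simp
    · intro h
      rw [Finsupp.single_left_inj one_ne_zero] at h
      exact hj h
  · simp

lemma lin_ne_zero {l : ℕ} {a : Fin l → K} (h : a ≠ 0) : lin a ≠ 0 := by
  intro h0
  apply h
  ext i
  rw [← coeff_lin a i, h0]
  simp

/-- the pairing -/
def pr {l : ℕ} (a v : Fin l → K) : K := ∑ i, a i * v i

/-- translation in direction `v` -/
noncomputable def tau {l : ℕ} (v : Fin l → K) :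
    MvPolynomial (Fin l) K →ₐ[K] Polynomial (MvPolynomial (Fin l) K) :=
  aeval (fun i => Polynomial.C (X i) + Polynomial.C (C (v i)) * Polynomial.X)

/-- Hasse derivatives in direction `v` -/
noncomputable def hD {l : ℕ} (v : Fin l → K) (k : ℕ) :
    MvPolynomial (Fin l) K →ₗ[K] MvPolynomial (Fin l) K :=
  ((Polynomial.lcoeff (MvPolynomial (Fin l) K) k).restrictScalars K) ∘ₗ (tau v).toLinearMap

lemma hD_apply {l : ℕ} (v : Fin l → K) (k : ℕ) (f : MvPolynomial (Fin l) K) :
    hD v k f = (tau v f).coeff k := rfl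

lemma tau_lin {l : ℕ} (v a : Fin l → K) :
    tau v (lin a) = Polynomial.C (lin a) + Polynomial.C (C (pr a v)) * Polynomial.X := by
  rw [lin, map_sum]
  simp only [map_mul, tau, aeval_X]
  have h : ∀ i, (aeval (fun i => Polynomial.C (X i) + Polynomial.C (C (v i)) * Polynomial.X))
      (C (a i) : MvPolynomial (Fin l) K) =
      (Polynomial.C (C (a i)) : Polynomial (MvPolynomial (Fin l) K)) := by
    intro i
    rw [← algebraMap_eq, AlgHom.commutes]
    rfl
  simp only [h, pr, map_sum, map_mul, Finset.sum_mul]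
  rw [← Finset.sum_add_distrib]
  apply Finset.sum_congr rfl
  intro i _
  ring

lemma hD_zero {l : ℕ} (v : Fin l → K) (f : MvPolynomial (Fin l) K) : hD v 0 f = f := by
  rw [hD_apply]
  have h : (Polynomial.constantCoeff (R := MvPolynomial (Fin l) K)).comp
      (tau v : MvPolynomial (Fin l) K →+* Polynomial (MvPolynomial (Fin l) K)) = RingHom.id _ := by
    apply MvPolynomial.ringHom_ext
    · intro r
      simp only [RingHom.comp_apply, RingHom.id_apply]
      have : tau v (C r) = Polynomial.C (C r) := by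
        rw [← algebraMap_eq, AlgHom.commutes]; rfl
      rw [RingHom.coe_coe, this]
      simp
    · intro i
      simp [tau]
  have h2 := congrArg (fun g => g f) h
  simpa using h2

lemma hD_lin_mul_succ {l : ℕ} (v a : Fin l → K) (k : ℕ) (g : MvPolynomial (Fin l) K) :
    hD v (k+1) (lin a * g) = lin a * hD v (k+1) g + C (pr a v) * hD v k g := by
  rw [hD_apply, hD_apply, hD_apply, map_mul, tau_lin, add_mul, Polynomial.coeff_add,
    Polynomial.coeff_C_mul, mul_assoc, Polynomial.coeff_C_mul, Polynomial.coeff_X_mul]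

lemma hD_lin_mul_of_zero {l : ℕ} (v a : Fin l → K) (h : pr a v = 0) (k : ℕ)
    (g : MvPolynomial (Fin l) K) :
    hD v k (lin a * g) = lin a * hD v k g := by
  rw [hD_apply, hD_apply, map_mul, tau_lin, h]
  simp

lemma hD_large {l : ℕ} (v : Fin l → K) (f : MvPolynomial (Fin l) K) :
    ∃ n, ∀ k, n ≤ k → hD v k f = 0 := by
  refine ⟨(tau v f).natDegree + 1, fun k hk => ?_⟩
  rw [hD_apply]
  exact Polynomial.coeff_eq_zero_of_natDegree_lt (by omega)

/-! ### componentwise maps and matrix actions -/

section comp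

variable {a b c : Type}

/-- apply a linear map componentwise -/
noncomputable def cw {l m : ℕ} (φ : MvPolynomial (Fin l) K →ₗ[K] MvPolynomial (Fin m) K) :
    (a → MvPolynomial (Fin l) K) →ₗ[K] (a → MvPolynomial (Fin m) K) :=
  φ.compLeft a

@[simp] lemma cw_apply {l m : ℕ} (φ : MvPolynomial (Fin l) K →ₗ[K] MvPolynomial (Fin m) K)
    (w : a → MvPolynomial (Fin l) K) (i : a) : cw φ w i = φ (w i) := rfl

/-- action of a matrix over `K` on families of polynomials -/
noncomputable def act {l : ℕ} [Fintype b] (T : Matrix a b K) :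
    (b → MvPolynomial (Fin l) K) →ₗ[K] (a → MvPolynomial (Fin l) K) where
  toFun w := fun i => ∑ j, T i j • w j
  map_add' w w' := by
    ext1 i
    simp only [Pi.add_apply, smul_add, Finset.sum_add_distrib]
  map_smul' r w := by
    ext1 i
    simp only [Pi.smul_apply, RingHom.id_apply, Finset.smul_sum]
    apply Finset.sum_congr rfl
    intro j _
    rw [smul_comm]

lemma act_apply {l : ℕ} [Fintype b] (T : Matrix a b K) (w : b → MvPolynomial (Fin l) K) (i : a) :
    act T w i = ∑ j, T i j • w j := rfl

lemma act_cw {l m : ℕ} [Fintype b] (T : Matrix a b K)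
    (φ : MvPolynomial (Fin l) K →ₗ[K] MvPolynomial (Fin m) K) (w : b → MvPolynomial (Fin l) K) :
    act T (cw φ w) = cw φ (act T w) := by
  ext1 i
  simp only [act_apply, cw_apply, map_sum, map_smul]

lemma act_act {l : ℕ} [Fintype b] [Fintype c] (T : Matrix a b K) (T' : Matrix b c K)
    (w : c → MvPolynomial (Fin l) K) : act T (act T' w) = act (T * T') w := by
  ext1 i
  simp only [act_apply, Matrix.mul_apply, Finset.smul_sum, Finset.sum_smul]
  rw [Finset.sum_comm]
  apply Finset.sum_congr rfl
  intro k _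
  apply Finset.sum_congr rfl
  intro j _
  rw [smul_smul]

lemma act_smul {l : ℕ} [Fintype b] (T : Matrix a b K) (f : MvPolynomial (Fin l) K)
    (w : b → MvPolynomial (Fin l) K) : act T (f • w) = f • act T w := by
  ext1 i
  simp only [act_apply, Pi.smul_apply, Finset.smul_sum]
  apply Finset.sum_congr rfl
  intro j _
  rw [smul_comm]

lemma act_one {l : ℕ} [Fintype b] [DecidableEq b] (w : b → MvPolynomial (Fin l) K) :
    act (1 : Matrix b b K) w = w := by
  ext1 i
  simp [act_apply, Matrix.one_apply]

lemma act_zero_mat {l : ℕ} [Fintype b] (w : b → MvPolynomial (Fin l) K) :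
    act (0 : Matrix a b K) w = 0 := by
  ext1 i
  simp [act_apply]

lemma act_add_mat {l : ℕ} [Fintype b] (T T' : Matrix a b K) (w : b → MvPolynomial (Fin l) K) :
    act (T + T') w = act T w + act T' w := by
  ext1 i
  simp [act_apply, add_smul, Finset.sum_add_distrib]

lemma act_smul_mat {l : ℕ} [Fintype b] (r : K) (T : Matrix a b K)
    (w : b → MvPolynomial (Fin l) K) : act (r • T) w = r • act T w := by
  ext1 i
  simp [act_apply, Finset.smul_sum, smul_smul]

lemma act_sum_mat {l : ℕ} [Fintype b] {ι : Type} (s : Finset ι) (T : ι → Matrix a b K)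
    (w : b → MvPolynomial (Fin l) K) : act (∑ i ∈ s, T i) w = ∑ i ∈ s, act (T i) w := by
  classical
  induction s using Finset.induction_on with
  | empty => simp [act_zero_mat]
  | insert x s hx ih => rw [Finset.sum_insert hx, Finset.sum_insert hx, act_add_mat, ih]

lemma cw_algHom_smul {l m : ℕ} (ρ : MvPolynomial (Fin l) K →ₐ[K] MvPolynomial (Fin m) K)
    (f : MvPolynomial (Fin l) K) (w : a → MvPolynomial (Fin l) K) :
    cw ρ.toLinearMap (f • w) = ρ f • cw ρ.toLinearMap w := by
  ext1 i
  simp

lemma cw_hD_zero {l : ℕ} (v : Fin l → K) (w : a → MvPolynomial (Fin l) K) :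
    cw (hD v 0) w = w := by
  ext1 i
  simp [hD_zero]

lemma cw_hD_lin_smul_succ {l : ℕ} (v α : Fin l → K) (k : ℕ) (w : a → MvPolynomial (Fin l) K) :
    cw (hD v (k+1)) (lin α • w) = lin α • cw (hD v (k+1)) w + pr α v • cw (hD v k) w := by
  ext1 i
  simp only [cw_apply, Pi.smul_apply, Pi.add_apply, smul_eq_mul, hD_lin_mul_succ]
  rw [← smul_eq_C_mul]

lemma cw_hD_lin_smul_of_zero {l : ℕ} (v α : Fin l → K) (h : pr α v = 0) (k : ℕ)
    (w : a → MvPolynomial (Fin l) K) :
    cw (hD v k) (lin α • w) = lin α • cw (hD v k) w := by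
  ext1 i
  simp only [cw_apply, Pi.smul_apply, smul_eq_mul, hD_lin_mul_of_zero v α h]

lemma cw_hD_large [Finite a] {l : ℕ} (v : Fin l → K) (w : a → MvPolynomial (Fin l) K) :
    ∃ n, ∀ k, n ≤ k → cw (hD v k) w = 0 := by
  classical
  have : Fintype a := Fintype.ofFinite a
  choose n hn using fun i => hD_large v (w i)
  refine ⟨Finset.univ.sup n, fun k hk => ?_⟩
  ext1 i
  exact hn i k (le_trans (Finset.le_sup (Finset.mem_univ i)) hk)

/-- Saturation: a subspace stable under multiplication and the Hasse derivatives along `v` is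
saturated with respect to linear forms not vanishing at `v`. -/
lemma saturation_lin [Finite a] {l : ℕ} (v α : Fin l → K) (hα : pr α v ≠ 0)
    (N : Submodule K (a → MvPolynomial (Fin l) K))
    (hmul : ∀ (f : MvPolynomial (Fin l) K) w, w ∈ N → f • w ∈ N)
    (hD' : ∀ k w, w ∈ N → cw (hD v k) w ∈ N)
    (w : a → MvPolynomial (Fin l) K) (hw : lin α • w ∈ N) : w ∈ N := by
  obtain ⟨n, hn⟩ := cw_hD_large v w
  have key : ∀ m k, n ≤ k + m → cw (hD v k) w ∈ N := by
    intro m
    induction m with
    | zero =>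
      intro k hk
      rw [hn k (by omega)]
      exact N.zero_mem
    | succ m ih =>
      intro k hk
      have h1 := ih (k+1) (by omega)
      have h2 := hD' (k+1) _ hw
      rw [cw_hD_lin_smul_succ] at h2
      have h3 := hmul (lin α) _ h1
      have h4 : pr α v • cw (hD v k) w ∈ N := by
        have := N.sub_mem h2 h3
        rwa [add_sub_cancel_left] at this
      have h5 := N.smul_mem (pr α v)⁻¹ h4
      rwa [smul_smul, inv_mul_cancel₀ hα, one_smul] at h5
  have := key n 0 (by omega)
  rwa [cw_hD_zero] at this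

end comp

/-- The product of the forms of the multiset `L` that do not vanish at `v`. -/
noncomputable def gg {l : ℕ} (L : Multiset (Fin l → K)) (v : Fin l → K) :
    MvPolynomial (Fin l) K := by
  classical
  exact ((L.filter (fun α => pr α v ≠ 0)).map lin).prod

lemma gg_zero {l : ℕ} (v : Fin l → K) : gg (0 : Multiset (Fin l → K)) v = 1 := by
  simp [gg]

lemma gg_cons_of_ne {l : ℕ} (L : Multiset (Fin l → K)) (v α : Fin l → K) (h : pr α v ≠ 0) :
    gg (α ::ₘ L) v = lin α * gg L v := by
  classical
  simp [gg, h]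

lemma gg_cons_of_eq {l : ℕ} (L : Multiset (Fin l → K)) (v α : Fin l → K) (h : pr α v = 0) :
    gg (α ::ₘ L) v = gg L v := by
  classical
  simp [gg, h]

lemma gg_eq_one {l : ℕ} (L : Multiset (Fin l → K)) (v : Fin l → K) (h : ∀ α ∈ L, pr α v = 0) :
    gg L v = 1 := by
  classical
  rw [gg, Multiset.filter_eq_nil.2]
  · simp
  · intro α hα
    simp [h α hα]

lemma gg_ne_zero {l : ℕ} (L : Multiset (Fin l → K)) (v : Fin l → K) : gg L v ≠ 0 := by
  induction L using Multiset.induction_on with
  | empty => rw [gg_zero]; exact one_ne_zero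
  | cons α L ih =>
    by_cases h : pr α v = 0
    · rwa [gg_cons_of_eq L v α h]
    · rw [gg_cons_of_ne L v α h]
      apply mul_ne_zero _ ih
      apply lin_ne_zero
      rintro rfl
      exact h (by simp [pr])

lemma saturation_gg {a : Type} [Finite a] {l : ℕ} (v : Fin l → K) (L : Multiset (Fin l → K))
    (N : Submodule K (a → MvPolynomial (Fin l) K))
    (hmul : ∀ (f : MvPolynomial (Fin l) K) w, w ∈ N → f • w ∈ N)
    (hD' : ∀ k w, w ∈ N → cw (hD v k) w ∈ N)
    (w : a → MvPolynomial (Fin l) K) (hw : gg L v • w ∈ N) : w ∈ N := by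
  induction L using Multiset.induction_on generalizing w with
  | empty => simpa [gg_zero] using hw
  | cons α L ih =>
    by_cases h : pr α v = 0
    · rw [gg_cons_of_eq L v α h] at hw
      exact ih w hw
    · rw [gg_cons_of_ne L v α h, mul_smul] at hw
      exact ih w (saturation_lin v α h N hmul hD' _ hw)

end Pool.Agent.Lib.P81a4d5
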