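import Mathlib
import Pool.Agent.Lib.P81a4d5.Restrict

set_option autoImplicit false

open MvPolynomial

namespace Pool.Agent.Lib.P81a4d5

variable {K : Type} [Field K]

lemma hc_rho {l : ℕ} (i₀ : Fin (l+1)) (β : Fin l → K) (j : ℕ) (f : MvPolynomial (Fin (l+1)) K) :
    homogeneousComponent j (rho i₀ β f) = rho i₀ β (homogeneousComponent j f) := by
  have hg : ∀ i, (i₀.insertNth (α := fun _ => MvPolynomial (Fin l) K) (- lin β) (fun j => X j) i).IsHomogeneous 1 := by
    intro i
    refine Fin.succAboveCases i₀ ?_ ?_ i
    · simpa using (lin_isHomogeneous β).neg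
    · intro j
      simpa using isHomogeneous_X K j
  induction f using MvPolynomial.induction_on' with
  | monomial d c =>
    have h1 : (monomial d c : MvPolynomial (Fin (l+1)) K).IsHomogeneous d.degree :=
      isHomogeneous_monomial c rfl
    have h2 : (rho i₀ β (monomial d c)).IsHomogeneous d.degree := by
      have := h1.aeval _ hg
      rwa [one_mul] at this
    rw [homogeneousComponent_of_mem h1, homogeneousComponent_of_mem h2]
    split_ifs <;> simp
  | add p q hp hq => simp [map_add, hp, hq]

lemma hc_lin_mul {l : ℕ} (a : Fin l → K) (j : ℕ) (f : MvPolynomial (Fin l) K) :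
    homogeneousComponent (j+1) (lin a * f) = lin a * homogeneousComponent j f := by
  induction f using MvPolynomial.induction_on' with
  | monomial d c =>
    have h1 : (monomial d c : MvPolynomial (Fin l) K).IsHomogeneous d.degree :=
      isHomogeneous_monomial c rfl
    have h2 : (lin a * monomial d c).IsHomogeneous (d.degree + 1) := by
      rw [add_comm]; exact (lin_isHomogeneous a).mul h1
    rw [homogeneousComponent_of_mem h1, homogeneousComponent_of_mem h2]
    simp only [add_left_inj]
    split_ifs <;> simp
  | add p q hp hq => simp [mul_add, map_add, hp, hq]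

lemma hc_zero_lin_mul {l : ℕ} (a : Fin l → K) (f : MvPolynomial (Fin l) K) :
    homogeneousComponent 0 (lin a * f) = 0 := by
  induction f using MvPolynomial.induction_on' with
  | monomial d c =>
    have h1 : (monomial d c : MvPolynomial (Fin l) K).IsHomogeneous d.degree :=
      isHomogeneous_monomial c rfl
    have h2 : (lin a * monomial d c).IsHomogeneous (d.degree + 1) := by
      rw [add_comm]; exact (lin_isHomogeneous a).mul h1
    rw [homogeneousComponent_of_mem h2, if_neg (by omega)]
  | add p q hp hq => simp [mul_add, map_add, hp, hq]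

/-- families of homogeneous polynomials of degree `j` -/
noncomputable def homU (K : Type) [Field K] (a : Type) (l j : ℕ) : Submodule K (a → MvPolynomial (Fin l) K) where
  carrier := {w | ∀ i, (w i).IsHomogeneous j}
  add_mem' h1 h2 i := (h1 i).add (h2 i)
  zero_mem' i := isHomogeneous_zero _ _ _
  smul_mem' r w h i := by
    have := h i
    rw [Pi.smul_apply]
    exact (homogeneousSubmodule (Fin l) K j).smul_mem r this

lemma mem_homU {a : Type} {l j : ℕ} {w : a → MvPolynomial (Fin l) K} :
    w ∈ homU K a l j ↔ ∀ i, (w i).IsHomogeneous j := Iff.rfl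

instance homU_finite (a : Type) [Finite a] (l j : ℕ) : FiniteDimensional K (homU K a l j) := by
  have h1 : FiniteDimensional K (homogeneousSubmodule (Fin l) K j) :=
    Module.Finite.iff_fg.2 (homogeneousSubmodule_fg _ _ j)
  let φ : homU K a l j →ₗ[K] (a → homogeneousSubmodule (Fin l) K j) :=
    { toFun := fun w i => ⟨w.1 i, w.2 i⟩
      map_add' := fun _ _ => rfl
      map_smul' := fun _ _ => rfl }
  have hφ : Function.Injective φ := by
    intro w w' h
    apply Subtype.ext
    ext1 i
    have := congrFun h i
    exact congrArg Subtype.val this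
  exact FiniteDimensional.of_injective φ hφ

/-- the graded piece -/
noncomputable def WW {a : Type} {l : ℕ} (N : Submodule K (a → MvPolynomial (Fin l) K)) (j : ℕ) :
    Submodule K (a → MvPolynomial (Fin l) K) := N ⊓ homU K a l j

lemma mem_WW {a : Type} {l j : ℕ} {N : Submodule K (a → MvPolynomial (Fin l) K)}
    {w : a → MvPolynomial (Fin l) K} : w ∈ WW N j ↔ w ∈ N ∧ ∀ i, (w i).IsHomogeneous j := Iff.rfl

instance WW_finite {a : Type} [Finite a] {l : ℕ} (N : Submodule K (a → MvPolynomial (Fin l) K))
    (j : ℕ) : FiniteDimensional K (WW N j) :=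
  Submodule.finiteDimensional_of_le (S₂ := homU K a l j) inf_le_right

lemma finrank_split {U₁ U₂ : Type} [AddCommGroup U₁] [Module K U₁] [AddCommGroup U₂] [Module K U₂]
    (A : Submodule K U₁) [FiniteDimensional K A] (R : U₁ →ₗ[K] U₂) :
    Module.finrank K A = Module.finrank K (A.map R) +
      Module.finrank K (A ⊓ LinearMap.ker R : Submodule K U₁) := by
  have h := LinearMap.finrank_range_add_finrank_ker (R.domRestrict A)
  have h1 : LinearMap.range (R.domRestrict A) = A.map R := by
    ext x
    simp only [LinearMap.mem_range, Submodule.mem_map]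
    constructor
    · rintro ⟨y, rfl⟩
      exact ⟨y.1, y.2, rfl⟩
    · rintro ⟨y, hy, rfl⟩
      exact ⟨⟨y, hy⟩, rfl⟩
  have h2 : Module.finrank K (LinearMap.ker (R.domRestrict A)) =
      Module.finrank K (A ⊓ LinearMap.ker R : Submodule K U₁) := by
    have e : (LinearMap.ker (R.domRestrict A)).map A.subtype = A ⊓ LinearMap.ker R := by
      ext x
      simp only [Submodule.mem_map, LinearMap.mem_ker, Submodule.mem_inf, LinearMap.domRestrict_apply]
      constructor
      · rintro ⟨y, hy, rfl⟩
        exact ⟨y.2, hy⟩
      · rintro ⟨h1, h2⟩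
        exact ⟨⟨x, h1⟩, h2, rfl⟩
    rw [← e]
    exact ((Submodule.equivMapOfInjective A.subtype A.injective_subtype _).finrank_eq)
  rw [← h, h1, h2]

lemma finrank_map_inj {U₁ U₂ : Type} [AddCommGroup U₁] [Module K U₁] [AddCommGroup U₂] [Module K U₂]
    (A : Submodule K U₁) (R : U₁ →ₗ[K] U₂) (hR : Function.Injective R) :
    Module.finrank K (A.map R) = Module.finrank K A :=
  (Submodule.equivMapOfInjective R hR A).finrank_eq.symm

end Pool.Agent.Lib.P81a4d5
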