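import Mathlib
import Pool.Agent.Lib.P81a4d5.System

set_option autoImplicit false
set_option linter.unusedSectionVars false

open MvPolynomial

namespace Pool.Agent.Lib.P81a4d5

variable {K : Type} [Field K] {ι : ℕ → Type} [∀ p, Fintype (ι p)] [∀ p, DecidableEq (ι p)]

lemma act_homogeneous {a b : Type} [Fintype b] {l : ℕ} (T : Matrix a b K)
    (w : b → MvPolynomial (Fin l) K) (j : ℕ) (hw : ∀ i, (w i).IsHomogeneous j) (i : a) :
    (act T w i).IsHomogeneous j := by
  rw [act_apply]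
  apply IsHomogeneous.sum
  intro m _
  exact (homogeneousSubmodule (Fin l) K j).smul_mem _ (hw m)

section product

variable {l : ℕ} {O : Ops K ι (l+1)}

lemma finrank_kerN (i₀ : Fin (l+1)) (N₀ : ∀ p, Submodule K (ι p → MvPolynomial (Fin l) K))
    (hkap : ∀ p w, w ∈ N₀ (p+1) → act (O.kap i₀ p) w ∈ N₀ p)
    (heps : ∀ p w, w ∈ N₀ p → act (O.eps i₀ p) w ∈ N₀ (p+1))
    (hkk : ∀ p w, w ∈ N₀ (p+2) → act (O.kap i₀ p) (act (O.kap i₀ (p+1)) w) = 0) (p j : ℕ) :
    Module.finrank K (WW (N₀ (p+1)) j) =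
      Module.finrank K (WW (kerN O i₀ N₀ p) j) + Module.finrank K (WW (kerN O i₀ N₀ (p+1)) j) := by
  have h1 : (WW (N₀ (p+1)) j).map (act (O.kap i₀ p)) = WW (kerN O i₀ N₀ p) j := by
    ext w
    constructor
    · rintro ⟨u, ⟨hu1, hu2⟩, rfl⟩
      refine ⟨?_, fun i => act_homogeneous _ _ j hu2 i⟩
      cases p with
      | zero => exact hkap 0 u hu1
      | succ p => exact ⟨hkap _ u hu1, hkk p u hu1⟩
    · rintro ⟨hw1, hw2⟩
      refine ⟨act (O.eps i₀ p) w, ⟨heps p w (kerN_le i₀ N₀ p hw1),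
        fun i => act_homogeneous _ _ j hw2 i⟩, ?_⟩
      rw [kap_eps_kerN i₀ N₀ p w hw1, if_pos rfl]
  have h2 : (WW (N₀ (p+1)) j) ⊓ LinearMap.ker (act (l := l) (O.kap i₀ p)) =
      WW (kerN O i₀ N₀ (p+1)) j := by
    ext w
    constructor
    · rintro ⟨⟨hw1, hw2⟩, hw3⟩
      exact ⟨⟨hw1, hw3⟩, hw2⟩
    · rintro ⟨⟨hw1, hw3⟩, hw2⟩
      exact ⟨⟨hw1, hw2⟩, hw3⟩
  rw [finrank_split (WW (N₀ (p+1)) j) (act (O.kap i₀ p)), h1, h2]

lemma cc_kerN_zero (i₀ : Fin (l+1)) (N₀ : ∀ p, Submodule K (ι p → MvPolynomial (Fin l) K)) :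
    cc N₀ 0 = cc (kerN O i₀ N₀) 0 := by
  simp only [cc, zero_add, Finset.range_one, Finset.sum_singleton]
  rfl

lemma cc_kerN_succ (i₀ : Fin (l+1)) (N₀ : ∀ p, Submodule K (ι p → MvPolynomial (Fin l) K))
    (hkap : ∀ p w, w ∈ N₀ (p+1) → act (O.kap i₀ p) w ∈ N₀ p)
    (heps : ∀ p w, w ∈ N₀ p → act (O.eps i₀ p) w ∈ N₀ (p+1))
    (hkk : ∀ p w, w ∈ N₀ (p+2) → act (O.kap i₀ p) (act (O.kap i₀ (p+1)) w) = 0) (k : ℕ) :
    cc N₀ (k+1) = cc (kerN O i₀ N₀) (k+1) - cc (kerN O i₀ N₀) k := by
  have h0 : cc N₀ (k+1) = (Module.finrank K (WW (N₀ 0) (k+1)) : ℤ) +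
      ∑ p ∈ Finset.range (k+1), (-1) ^ (p+1) * (Module.finrank K (WW (N₀ (p+1)) (k - p)) : ℤ) := by
    rw [cc, Finset.sum_range_succ', add_comm]
    congr 1
    · simp
    · apply Finset.sum_congr rfl
      intro p _
      rw [Nat.add_sub_add_right]
  have h1 : cc (kerN O i₀ N₀) (k+1) = (Module.finrank K (WW (kerN O i₀ N₀ 0) (k+1)) : ℤ) +
      ∑ p ∈ Finset.range (k+1), (-1) ^ (p+1) *
        (Module.finrank K (WW (kerN O i₀ N₀ (p+1)) (k - p)) : ℤ) := by
    rw [cc, Finset.sum_range_succ', add_comm]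
    congr 1
    · simp
    · apply Finset.sum_congr rfl
      intro p _
      rw [Nat.add_sub_add_right]
  have h2 : (Module.finrank K (WW (N₀ 0) (k+1)) : ℤ) =
      (Module.finrank K (WW (kerN O i₀ N₀ 0) (k+1)) : ℤ) := rfl
  rw [h0, h1, h2, cc, add_sub_assoc, ← Finset.sum_sub_distrib]
  congr 1
  apply Finset.sum_congr rfl
  intro p _
  rw [finrank_kerN i₀ N₀ hkap heps hkk p (k-p)]
  push_cast
  rw [pow_succ]
  ring

end product

lemma hom_fin_zero (f : MvPolynomial (Fin 0) K) (j : ℕ) (hj : 0 < j) (hf : f.IsHomogeneous j) :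
    f = 0 := by
  rw [MvPolynomial.eq_C_of_isEmpty f] at hf ⊢
  by_contra hne
  have h1 := hf.inj_right (isHomogeneous_C (Fin 0) (coeff 0 f)) hne
  omega

/-- The general vanishing theorem. -/
theorem GT : ∀ (l : ℕ) (O : Ops K ι l) (r : ℕ) (L : Multiset (Fin l → K)), Multiset.card L = r →
    ∀ (T : ℤ) (N : ∀ p, Submodule K (ι p → MvPolynomial (Fin l) K)), Sys O L T N →
    ∀ k : ℕ, (r : ℤ) + T - l < k → cc N k = 0 := by
  intro l
  induction l with
  | zero =>
    intro O r L _ T N h k hk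
    rw [cc, Finset.sum_range_succ]
    have hT : T < k := by push_cast at hk; omega
    have h1 : WW (N k) (k-k) = ⊥ := by
      rw [WW, h.top k hT, bot_inf_eq]
    rw [h1, finrank_bot]
    have h2 : ∀ p ∈ Finset.range k, (-1) ^ p * (Module.finrank K (WW (N p) (k-p)) : ℤ) = 0 := by
      intro p hp
      have hpk : 0 < k - p := by
        have := Finset.mem_range.1 hp
        omega
      have h3 : WW (N p) (k-p) = ⊥ := by
        rw [Submodule.eq_bot_iff]
        rintro w ⟨_, hw⟩
        ext1 i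
        exact hom_fin_zero (w i) (k-p) hpk (hw i)
      rw [h3, finrank_bot]
      simp
    rw [Finset.sum_eq_zero h2]
    simp
  | succ l ihl =>
    intro O r
    induction r with
    | zero =>
      intro L hL T N h
      have hL0 : L = 0 := Multiset.card_eq_zero.1 hL
      exact prodStep ihl h (by intro α hα; rw [hL0] at hα; exact absurd hα (Multiset.notMem_zero α))
        hL
    | succ r ihr =>
      intro L hL T N h
      by_cases hex : ∃ α ∈ L, α 0 ≠ 0
      · obtain ⟨α, hαL, hα⟩ := hex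
        obtain ⟨L', rfl⟩ := Multiset.exists_cons_of_mem hαL
        have hL' : Multiset.card L' = r := by simpa using hL
        have hα0 : α ≠ 0 := fun h => hα (by rw [h]; rfl)
        have hc := h.colon hα0
        have hres := h.restrict 0 (fun j => α ((0 : Fin (l+1)).succAbove j) / α 0)
        rw [Multiset.map_cons] at hres
        have hz : resC 0 (fun j => α ((0 : Fin (l+1)).succAbove j) / α 0) α = 0 := by
          ext1 j
          simp only [resC, Pi.zero_apply]
          rw [mul_div_cancel₀ _ hα, sub_self]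
        have hres' := hres.drop_zero hz
        intro k hk
        cases k with
        | zero =>
          rw [cc_zero h α 0 hα]
          apply ihl _ r _ (by rw [Multiset.card_map, hL']) T _ hres'
          push_cast at hk ⊢
          omega
        | succ k =>
          rw [cc_succ h α 0 hα]
          rw [ihr L' hL' T _ hc k (by push_cast at hk ⊢; omega)]
          rw [ihl _ r _ (by rw [Multiset.card_map, hL']) T _ hres' (k+1)
            (by push_cast at hk ⊢; omega)]
          simp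
      · push Not at hex
        exact prodStep ihl h hex hL
where
  prodStep {l : ℕ} {O : Ops K ι (l+1)} {r : ℕ} {L : Multiset (Fin (l+1) → K)} {T : ℤ}
    {N : ∀ p, Submodule K (ι p → MvPolynomial (Fin (l+1)) K)}
    (ihl : ∀ (O : Ops K ι l) (r : ℕ) (L : Multiset (Fin l → K)), Multiset.card L = r →
      ∀ (T : ℤ) (N : ∀ p, Submodule K (ι p → MvPolynomial (Fin l) K)), Sys O L T N →
      ∀ k : ℕ, (r : ℤ) + T - l < k → cc N k = 0)
    (h : Sys O L T N) (hL0 : ∀ α ∈ L, α 0 = 0) (hL : Multiset.card L = r) :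
    ∀ k : ℕ, (r : ℤ) + T - ((l+1 : ℕ) : ℤ) < k → cc N k = 0 := by
    set e : Fin (l+1) → K := Pi.single 0 1 with he
    have he0 : e 0 ≠ 0 := by rw [he]; simp
    have hpr : ∀ a : Fin (l+1) → K, pr a e = a 0 := by
      intro a
      rw [pr, Finset.sum_eq_single 0]
      · simp [he]
      · intro b _ hb
        simp [he, Pi.single_apply, hb]
      · simp
    have hgg : gg L e = 1 := gg_eq_one L e (fun α hα => by rw [hpr, hL0 α hα])
    have hcol : colon e N = N := by
      ext p w
      rw [mem_colon]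
      constructor
      · intro hw
        apply saturation_lin e e (by rw [hpr]; exact he0) (N p) (h.mul p) _ w hw
        intro k u hu
        have := h.der e k p u
        rw [hgg, one_smul, one_smul] at this
        exact this hu
      · intro hw
        exact h.mul p _ w hw
    have hβ : (fun j => e ((0 : Fin (l+1)).succAbove j) / e 0) = (0 : Fin l → K) := by
      ext1 j
      simp [he]
    have hepsV : ∀ p, O.epsV e p = O.eps 0 p := by
      intro p
      rw [Ops.epsV, Finset.sum_eq_single 0]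
      · simp [he]
      · intro b _ hb
        simp [he, Pi.single_apply, hb]
      · simp
    have hres := h.restrict 0 (0 : Fin l → K)
    set N₀ := resN 0 (0 : Fin l → K) N with hN₀
    have hkap : ∀ p w, w ∈ N₀ (p+1) → act (O.kap 0 p) w ∈ N₀ p := by
      rintro p _ ⟨u, hu, rfl⟩
      exact ⟨act (O.kap 0 p) u, h.kap 0 p u hu, (act_cw _ _ _).symm⟩
    have heps : ∀ p w, w ∈ N₀ p → act (O.eps 0 p) w ∈ N₀ (p+1) := by
      rintro p _ ⟨u, hu, rfl⟩
      refine ⟨act (O.eps 0 p) u, ?_, (act_cw _ _ _).symm⟩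
      have := h.eps e p u
      rw [hgg, one_smul, one_smul, hepsV] at this
      exact this hu
    have hkk : ∀ j p w, w ∈ N₀ (p+2) → act (O.kap 0 p) (act (O.kap j (p+1)) w) +
        act (O.kap j p) (act (O.kap 0 (p+1)) w) = 0 := by
      rintro j p _ ⟨u, hu, rfl⟩
      rw [act_cw, act_cw, act_cw, act_cw, ← map_add, h.kk _ _ p u hu, map_zero]
    have hkk0 : ∀ p w, w ∈ N₀ (p+2) → act (O.kap 0 p) (act (O.kap 0 (p+1)) w) = 0 := by
      rintro p _ ⟨u, hu, rfl⟩
      rw [act_cw, act_cw, h.kk0 _ p u hu, map_zero]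
    have hker := sys_kerN 0 _ N₀ hres hkap heps hkk
    have hvan : ∀ k : ℕ, (r : ℤ) + T - ((l+1 : ℕ) : ℤ) < k → cc (kerN O 0 N₀) k = 0 := by
      intro k hk
      apply ihl _ r _ (by rw [Multiset.card_map, hL]) (T-1) _ hker
      push_cast at hk ⊢
      omega
    have heq : ∀ k, cc N k = cc (kerN O 0 N₀) k := by
      intro k
      induction k with
      | zero =>
        rw [cc_zero h e 0 he0, hβ, ← cc_kerN_zero]
      | succ k ih =>
        rw [cc_succ h e 0 he0, hβ, hcol, ih, cc_kerN_succ 0 N₀ hkap heps hkk0]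
        ring
    intro k hk
    rw [heq]
    exact hvan k hk

end Pool.Agent.Lib.P81a4d5
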