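import Mathlib
import Pool.Agent.Lib.P81a4d5.Alt
import Pool.Agent.Lib.P81a4d5.GT

set_option autoImplicit false
set_option linter.unusedSectionVars false

open MvPolynomial

namespace Pool.Agent.Lib.P81a4d5

variable {K : Type} [Field K]

/-! ### divisibility by linear forms -/

lemma dvd_cancel {l : ℕ} (a b : Fin l → K) (ha : a ≠ 0) (h : ∀ c : K, b ≠ c • a)
    (f : MvPolynomial (Fin l) K) (hf : lin a ∣ lin b * f) : lin a ∣ f := by
  cases l with
  | zero => exact absurd (Subsingleton.elim a 0) ha
  | succ l =>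
    obtain ⟨i₀, hi₀⟩ : ∃ i, a i ≠ 0 := by
      by_contra hcon
      push Not at hcon
      exact ha (funext hcon)
    rw [← rho_eq_zero_iff' i₀ a hi₀] at hf ⊢
    rw [map_mul, rho_lin, mul_eq_zero] at hf
    rcases hf with hf | hf
    · exfalso
      have h1 : resC i₀ (fun j => a (i₀.succAbove j) / a i₀) b = 0 := by
        by_contra hne
        exact lin_ne_zero hne hf
      apply h (b i₀ / a i₀)
      ext i
      refine Fin.succAboveCases i₀ ?_ ?_ i
      · simp only [Pi.smul_apply, smul_eq_mul]
        rw [div_mul_cancel₀ _ hi₀]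
      · intro j
        have h2 := congrFun h1 j
        simp only [resC, Pi.zero_apply] at h2
        simp only [Pi.smul_apply, smul_eq_mul]
        rw [sub_eq_zero] at h2
        rw [h2]
        ring
    · exact hf

lemma pr_smul {l : ℕ} (c : K) (a v : Fin l → K) : pr (c • a) v = c * pr a v := by
  simp only [pr, Pi.smul_apply, smul_eq_mul, Finset.mul_sum, mul_assoc]

lemma dvd_cancel_gg {l : ℕ} (a v : Fin l → K) (ha : a ≠ 0) (hav : pr a v = 0)
    (L : Multiset (Fin l → K)) (f : MvPolynomial (Fin l) K) (hf : lin a ∣ gg L v * f) :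
    lin a ∣ f := by
  induction L using Multiset.induction_on generalizing f with
  | empty => rwa [gg_zero, one_mul] at hf
  | cons b L ih =>
    by_cases h : pr b v = 0
    · rw [gg_cons_of_eq L v b h] at hf
      exact ih f hf
    · rw [gg_cons_of_ne L v b h, mul_assoc] at hf
      apply ih
      apply dvd_cancel a b ha _ _ hf
      intro c hc
      apply h
      rw [hc, pr_smul, hav, mul_zero]

lemma lin_dvd_gg {l : ℕ} (a v : Fin l → K) (hav : pr a v ≠ 0)
    (L : Multiset (Fin l → K)) (ha : a ∈ L) : lin a ∣ gg L v := by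
  obtain ⟨L', rfl⟩ := Multiset.exists_cons_of_mem ha
  rw [gg_cons_of_ne L' v a hav]
  exact Dvd.intro _ rfl

lemma dvd_hc {l : ℕ} (a : Fin l → K) (j : ℕ) (f : MvPolynomial (Fin l) K) (hf : lin a ∣ f) :
    lin a ∣ homogeneousComponent j f := by
  obtain ⟨g, rfl⟩ := hf
  cases j with
  | zero => rw [hc_zero_lin_mul]; exact dvd_zero _
  | succ j => rw [hc_lin_mul]; exact Dvd.intro _ rfl

lemma dvd_hD {l : ℕ} (a v : Fin l → K) (hav : pr a v = 0) (k : ℕ) (f : MvPolynomial (Fin l) K)
    (hf : lin a ∣ f) : lin a ∣ hD v k f := by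
  obtain ⟨g, rfl⟩ := hf
  rw [hD_lin_mul_of_zero v a hav]
  exact Dvd.intro _ rfl

/-! ### the modules of logarithmic multiderivations -/

/-- contraction with a covector -/
noncomputable def kv {l m p : ℕ} (a : Fin l → K) (w : (Fin (p+1) → Fin l) → MvPolynomial (Fin m) K)
    (J : Fin p → Fin l) : MvPolynomial (Fin m) K := ∑ i, a i • w (Fin.cons i J)

/-- the `p`-th logarithmic module as functions of tuples -/
noncomputable def DD {l : ℕ} (A : Finset (Fin l → K)) :
    ∀ p, Submodule K ((Fin p → Fin l) → MvPolynomial (Fin l) K)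
  | 0 => ⊤
  | (p+1) =>
    { carrier := {w | AltF l (p+1) w ∧ ∀ a ∈ A, ∀ J : Fin p → Fin l, lin a ∣ kv a w J}
      add_mem' := by
        rintro w w' ⟨h1, h2⟩ ⟨h3, h4⟩
        refine ⟨⟨?_, ?_⟩, ?_⟩
        · intro J hJ
          rw [Pi.add_apply, h1.1 J hJ, h3.1 J hJ, add_zero]
        · intro J a b hab
          rw [Pi.add_apply, Pi.add_apply, h1.2 J a b hab, h3.2 J a b hab]
          ring
        · intro a ha J
          have : kv a (w + w') J = kv a w J + kv a w' J := by
            simp only [kv, Pi.add_apply, smul_add, Finset.sum_add_distrib]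
          rw [this]
          exact dvd_add (h2 a ha J) (h4 a ha J)
      zero_mem' := by
        refine ⟨⟨fun _ _ => rfl, fun _ _ _ _ => by simp⟩, ?_⟩
        intro a _ J
        simp [kv]
      smul_mem' := by
        rintro r w ⟨h1, h2⟩
        refine ⟨⟨?_, ?_⟩, ?_⟩
        · intro J hJ
          rw [Pi.smul_apply, h1.1 J hJ, smul_zero]
        · intro J a b hab
          rw [Pi.smul_apply, Pi.smul_apply, h1.2 J a b hab, smul_neg]
        · intro a ha J
          have : kv a (r • w) J = r • kv a w J := by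
            simp only [kv, Pi.smul_apply, Finset.smul_sum]
            apply Finset.sum_congr rfl
            intro i _
            rw [smul_comm]
          rw [this, smul_eq_C_mul]
          exact (h2 a ha J).mul_left _ }

lemma mem_DD_succ {l : ℕ} {A : Finset (Fin l → K)} {p : ℕ}
    {w : (Fin (p+1) → Fin l) → MvPolynomial (Fin l) K} :
    w ∈ DD A (p+1) ↔ AltF l (p+1) w ∧ ∀ a ∈ A, ∀ J : Fin p → Fin l, lin a ∣ kv a w J := Iff.rfl

lemma altF_zero {l m : ℕ} (w : (Fin 0 → Fin l) → MvPolynomial (Fin m) K) : AltF l 0 w :=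
  ⟨fun J hJ => absurd (fun s => Fin.elim0 s) hJ, fun _ a => Fin.elim0 a⟩

lemma altF_of_mem {l : ℕ} {A : Finset (Fin l → K)} {p : ℕ}
    {w : (Fin p → Fin l) → MvPolynomial (Fin l) K} (h : w ∈ DD A p) : AltF l p w := by
  cases p with
  | zero => exact altF_zero w
  | succ p => exact (mem_DD_succ.1 h).1

/-- the condition, with the alternation split off -/
lemma mem_DD_iff {l : ℕ} {A : Finset (Fin l → K)} {p : ℕ}
    {w : (Fin p → Fin l) → MvPolynomial (Fin l) K} :
    w ∈ DD A p ↔ AltF l p w ∧ ∀ a ∈ A, ∀ q (h : p = q+1), ∀ J : Fin q → Fin l,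
      lin a ∣ kv a (fun J' => w (J' ∘ Fin.cast h)) J := by
  cases p with
  | zero =>
    constructor
    · intro h
      exact ⟨altF_zero w, fun a _ q h => by omega⟩
    · intro _
      trivial
  | succ p =>
    rw [mem_DD_succ]
    constructor
    · rintro ⟨h1, h2⟩
      refine ⟨h1, ?_⟩
      intro a ha q hq J
      obtain rfl : p = q := by omega
      exact h2 a ha J
    · rintro ⟨h1, h2⟩
      exact ⟨h1, fun a ha J => h2 a ha p rfl J⟩

lemma altF_cw {l m p : ℕ} (φ : MvPolynomial (Fin m) K →ₗ[K] MvPolynomial (Fin m) K)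
    (w : (Fin p → Fin l) → MvPolynomial (Fin m) K) (h : AltF l p w) : AltF l p (cw φ w) := by
  constructor
  · intro J hJ
    rw [cw_apply, h.1 J hJ, map_zero]
  · intro J a b hab
    rw [cw_apply, cw_apply, h.2 J a b hab, map_neg]

lemma altF_smul {l m p : ℕ} (f : MvPolynomial (Fin m) K)
    (w : (Fin p → Fin l) → MvPolynomial (Fin m) K) (h : AltF l p w) : AltF l p (f • w) := by
  constructor
  · intro J hJ
    rw [Pi.smul_apply, h.1 J hJ, smul_zero]
  · intro J a b hab
    rw [Pi.smul_apply, Pi.smul_apply, h.2 J a b hab, smul_neg]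

lemma altF_of_smul {l m p : ℕ} (f : MvPolynomial (Fin m) K) (hf : f ≠ 0)
    (w : (Fin p → Fin l) → MvPolynomial (Fin m) K) (h : AltF l p (f • w)) : AltF l p w := by
  constructor
  · intro J hJ
    have := h.1 J hJ
    rw [Pi.smul_apply, smul_eq_mul, mul_eq_zero] at this
    exact this.resolve_left hf
  · intro J a b hab
    have := h.2 J a b hab
    rw [Pi.smul_apply, Pi.smul_apply, smul_eq_mul, smul_eq_mul, ← mul_neg] at this
    exact mul_left_cancel₀ hf this

lemma altF_kap {l m p : ℕ} (i : Fin l)
    (w : (Fin (p+1) → Fin l) → MvPolynomial (Fin m) K) (h : AltF l (p+1) w) :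
    AltF l p (act ((opsT K l).kap i p) w) := by
  constructor
  · intro J hJ
    rw [opsT, act_kapT]
    apply h.1
    intro hinj
    apply hJ
    intro s t hst
    have := @hinj s.succ t.succ (by simpa using hst)
    exact Fin.succ_injective _ this
  · intro J a b hab
    rw [opsT, act_kapT, act_kapT]
    have := h.2 (Fin.cons i J) a.succ b.succ (fun h => hab (Fin.succ_injective _ h))
    rw [← this]
    congr 1
    ext1 t
    refine Fin.cases ?_ ?_ t
    · simp only [Fin.cons_zero, Function.comp_apply]
      rw [Equiv.swap_apply_of_ne_of_ne (Fin.succ_ne_zero a).symm (Fin.succ_ne_zero b).symm]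
      rfl
    · intro t
      simp only [Fin.cons_succ, Function.comp_apply]
      rw [Equiv.swap_apply_def, Equiv.swap_apply_def]
      simp only [Fin.succ_inj]
      split_ifs <;> simp

lemma altF_cons_cons {l m p : ℕ}
    (w : (Fin (p+2) → Fin l) → MvPolynomial (Fin m) K) (h : AltF l (p+2) w) (i j : Fin l)
    (J : Fin p → Fin l) :
    w (Fin.cons i (Fin.cons j J)) = - w (Fin.cons j (Fin.cons i J)) := by
  rw [← h.2 (Fin.cons j (Fin.cons i J)) 0 1 (by simp)]
  congr 1
  ext1 t
  refine Fin.cases ?_ ?_ t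
  · simp
  · intro t
    refine Fin.cases ?_ ?_ t
    · simp
    · intro t
      simp only [Function.comp_apply]
      rw [Equiv.swap_apply_of_ne_of_ne]
      · rfl
      · exact Fin.succ_ne_zero _
      · intro hcon
        have := congrArg Fin.val hcon
        simp at this

lemma kv_smul {l m p : ℕ} (a : Fin l → K) (f : MvPolynomial (Fin m) K)
    (w : (Fin (p+1) → Fin l) → MvPolynomial (Fin m) K) (J : Fin p → Fin l) :
    kv a (f • w) J = f * kv a w J := by
  simp only [kv, Pi.smul_apply, Finset.mul_sum, smul_eq_mul]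
  apply Finset.sum_congr rfl
  intro i _
  rw [mul_smul_comm]

lemma kv_cw {l m p : ℕ} (a : Fin l → K) (φ : MvPolynomial (Fin m) K →ₗ[K] MvPolynomial (Fin m) K)
    (w : (Fin (p+1) → Fin l) → MvPolynomial (Fin m) K) (J : Fin p → Fin l) :
    kv a (cw φ w) J = φ (kv a w J) := by
  simp only [kv, cw_apply, map_sum, map_smul]

lemma kv_kap {l m p : ℕ} (a : Fin l → K) (i : Fin l)
    (w : (Fin (p+2) → Fin l) → MvPolynomial (Fin m) K) (h : AltF l (p+2) w) (J : Fin p → Fin l) :
    kv a (act ((opsT K l).kap i (p+1)) w) J = - kv a w (Fin.cons i J) := by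
  simp only [kv, opsT, act_kapT]
  rw [← Finset.sum_neg_distrib]
  apply Finset.sum_congr rfl
  intro j _
  rw [altF_cons_cons w h i j J, smul_neg]

lemma kv_eq_act {l m p : ℕ} (a : Fin l → K)
    (w : (Fin (p+1) → Fin l) → MvPolynomial (Fin m) K) (J : Fin p → Fin l) :
    kv a w J = act (∑ i, a i • kapT K l i p) w J := by
  rw [act_sum_mat, Finset.sum_apply]
  simp only [act_smul_mat, Pi.smul_apply, act_kapT, kv]

lemma kv_eps_zero {l m : ℕ} (a v : Fin l → K)
    (w : (Fin 0 → Fin l) → MvPolynomial (Fin m) K) (J : Fin 0 → Fin l) :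
    kv a (act ((opsT K l).epsV v 0) w) J = pr a v • w J := by
  rw [kv_eq_act, act_act, Ops.epsV, Matrix.sum_mul]
  simp only [Matrix.mul_sum, Matrix.smul_mul, Matrix.mul_smul]
  have h : ∀ i j, kapT K l i 0 * (opsT K l).eps j 0 = if i = j then 1 else 0 := opsT_car0 l
  simp only [h, smul_ite, smul_zero]
  simp only [Finset.sum_ite_eq, Finset.mem_univ, if_true]
  rw [act_sum_mat, Finset.sum_apply, pr, Finset.sum_smul]
  apply Finset.sum_congr rfl
  intro i _
  rw [smul_smul, act_smul_mat, act_one, Pi.smul_apply, mul_comm (v i)]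

lemma kv_eps {l m p : ℕ} (a v : Fin l → K)
    (w : (Fin (p+1) → Fin l) → MvPolynomial (Fin m) K) (J : Fin (p+1) → Fin l) :
    kv a (act ((opsT K l).epsV v (p+1)) w) J = pr a v • w J -
      act ((opsT K l).epsV v p) (kv a w) J := by
  have h0 : kv a w = act (∑ i, a i • kapT K l i p) w := by
    ext1 J'
    exact kv_eq_act a w J'
  rw [h0, kv_eq_act, act_act, act_act, eq_sub_iff_add_eq]
  rw [← Pi.add_apply, ← act_add_mat]
  have h1 : (∑ i, a i • kapT K l i (p+1)) * (opsT K l).epsV v (p+1) +
      (opsT K l).epsV v p * (∑ i, a i • kapT K l i p) = pr a v • 1 := by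
    rw [Ops.epsV, Ops.epsV, Matrix.sum_mul, Matrix.sum_mul]
    simp only [Matrix.mul_sum, Matrix.smul_mul, Matrix.mul_smul]
    rw [Finset.sum_comm (f := fun x i => a i • v x • ((opsT K l).eps x p * kapT K l i p)),
      ← Finset.sum_add_distrib]
    simp only [← Finset.sum_add_distrib]
    have h : ∀ i j, kapT K l i (p+1) * (opsT K l).eps j (p+1) + (opsT K l).eps j p * kapT K l i p =
        if i = j then 1 else 0 := fun i j => opsT_car l i j p
    have h2 : ∀ i j, v j • a i • (kapT K l i (p+1) * (opsT K l).eps j (p+1)) +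
        a i • v j • ((opsT K l).eps j p * kapT K l i p) =
        (a i * v j) • (if i = j then (1 : Matrix (Fin (p+1) → Fin l) (Fin (p+1) → Fin l) K) else 0) := by
      intro i j
      rw [← h i j, smul_smul, smul_smul, smul_add, mul_comm (v j) (a i)]
    simp only [h2, smul_ite, smul_zero, Finset.sum_ite_eq, Finset.mem_univ, if_true]
    rw [pr, Finset.sum_smul]
  rw [h1, act_smul_mat, act_one, Pi.smul_apply]

/-- the logarithmic modules form a system -/
theorem sys_DD {l : ℕ} (A : Finset (Fin l → K)) (hA : ∀ a ∈ A, a ≠ 0) :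
    Sys (opsT K l) A.val (l : ℤ) (DD A) where
  mul p f w hw := by
    cases p with
    | zero => trivial
    | succ p =>
      rw [mem_DD_succ] at hw ⊢
      refine ⟨altF_smul f w hw.1, ?_⟩
      intro a ha J
      rw [kv_smul]
      exact (hw.2 a ha J).mul_left f
  hom p j w hw := by
    cases p with
    | zero => trivial
    | succ p =>
      rw [mem_DD_succ] at hw ⊢
      refine ⟨altF_cw _ w hw.1, ?_⟩
      intro a ha J
      rw [kv_cw]
      exact dvd_hc a j _ (hw.2 a ha J)
  top p hp := by
    rw [Submodule.eq_bot_iff]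
    intro w hw
    have h1 := altF_of_mem hw
    ext1 J
    apply h1.1 J
    intro hinj
    have := Fintype.card_le_of_injective J hinj
    simp only [Fintype.card_fin] at this
    omega
  kap i p w hw := by
    rw [mem_DD_succ] at hw
    cases p with
    | zero => trivial
    | succ p =>
      rw [mem_DD_succ]
      refine ⟨altF_kap i w hw.1, ?_⟩
      intro a ha J
      rw [kv_kap a i w hw.1]
      exact (hw.2 a ha _).neg_right
  kk0 i p w hw := by
    have h1 := altF_of_mem hw
    ext1 J
    simp only [opsT, act_kapT]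
    apply h1.1
    intro hinj
    have := @hinj 0 1 (by simp)
    exact absurd this (by simp)
  kk i j p w hw := by
    have h1 := altF_of_mem hw
    ext1 J
    simp only [opsT, Pi.add_apply, act_kapT, Pi.zero_apply]
    rw [altF_cons_cons w h1 j i J]
    ring
  der v k p w hw := by
    cases p with
    | zero => trivial
    | succ p =>
      rw [mem_DD_succ] at hw ⊢
      refine ⟨altF_smul _ _ (altF_cw _ _ (altF_of_smul _ (gg_ne_zero _ _) _ hw.1)), ?_⟩
      intro a ha J
      rw [kv_smul, kv_cw]
      have h1 := hw.2 a ha J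
      rw [kv_smul] at h1
      by_cases hav : pr a v = 0
      · have h2 := dvd_cancel_gg a v (hA a ha) hav _ _ h1
        exact (dvd_hD a v hav k _ h2).mul_left _
      · exact (lin_dvd_gg a v hav _ ha).mul_right _
  eps v p w hw := by
    have halt : AltF l p w := altF_of_smul _ (gg_ne_zero _ _) _ (altF_of_mem hw)
    rw [mem_DD_succ]
    refine ⟨altF_smul _ _ (altF_eps v w halt), ?_⟩
    intro a ha J
    rw [kv_smul]
    by_cases hav : pr a v = 0
    · cases p with
      | zero =>
        rw [kv_eps_zero, hav, zero_smul, mul_zero]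
        exact dvd_zero _
      | succ p =>
        rw [kv_eps, hav, zero_smul, zero_sub, mul_neg]
        apply Dvd.dvd.neg_right
        rw [mem_DD_succ] at hw
        have h1 : ∀ J', lin a ∣ kv a w J' := by
          intro J'
          have h2 := hw.2 a ha J'
          rw [kv_smul] at h2
          exact dvd_cancel_gg a v (hA a ha) hav _ _ h2
        apply Dvd.dvd.mul_left
        rw [act_apply]
        apply Finset.dvd_sum
        intro J' _
        rw [smul_eq_C_mul]
        exact (h1 J').mul_left _
    · exact (lin_dvd_gg a v hav _ ha).mul_right _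

end Pool.Agent.Lib.P81a4d5
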