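import Mathlib
import Pool.Agent.Lib.P81a4d5.App

set_option autoImplicit false
set_option linter.unusedSectionVars false

open MvPolynomial

namespace Pool.Agent.Lib.P81a4d5

variable {K : Type} [Field K]

lemma colon_DD {l : ℕ} (A : Finset (Fin l → K)) (b : Fin l → K) (hb : b ≠ 0)
    (hA : ∀ a ∈ A, a ≠ 0) (hAb : ∀ a ∈ A, ∀ c : K, b ≠ c • a) [DecidableEq (Fin l → K)] :
    colon b (DD (insert b A)) = DD A := by
  ext p w
  rw [mem_colon]
  cases p with
  | zero => exact iff_of_true trivial trivial
  | succ p =>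
    rw [mem_DD_succ, mem_DD_succ]
    constructor
    · rintro ⟨h1, h2⟩
      refine ⟨altF_of_smul _ (lin_ne_zero hb) _ h1, ?_⟩
      intro a ha J
      have h3 := h2 a (Finset.mem_insert_of_mem ha) J
      rw [kv_smul] at h3
      exact dvd_cancel a b (hA a ha) (hAb a ha) _ h3
    · rintro ⟨h1, h2⟩
      refine ⟨altF_smul _ _ h1, ?_⟩
      intro a ha J
      rw [kv_smul]
      rcases Finset.mem_insert.1 ha with rfl | ha
      · exact Dvd.intro _ rfl
      · exact (h2 a ha J).mul_left _

/-- top degree elements of the logarithmic module are divisible by every form -/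
lemma dvd_top {l : ℕ} (A : Finset (Fin (l+1) → K)) (a : Fin (l+1) → K) (ha : a ∈ A)
    (i₀ : Fin (l+1)) (hi₀ : a i₀ ≠ 0) (w : (Fin (l+1) → Fin (l+1)) → MvPolynomial (Fin (l+1)) K)
    (hw : w ∈ DD A (l+1)) (J : Fin (l+1) → Fin (l+1)) : lin a ∣ w J := by
  rw [mem_DD_succ] at hw
  obtain ⟨h1, h2⟩ := hw
  have key : ∀ J : Fin (l+1) → Fin (l+1), J 0 = i₀ → Function.Injective J → lin a ∣ w J := by
    intro J hJ0 hJ
    have h3 := h2 a ha (fun s => J s.succ)
    rw [kv, Finset.sum_eq_single i₀] at h3
    · have h4 : (Fin.cons i₀ (fun s => J s.succ) : Fin (l+1) → Fin (l+1)) = J := by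
        ext1 t
        refine Fin.cases ?_ ?_ t
        · rw [Fin.cons_zero, hJ0]
        · intro t
          rw [Fin.cons_succ]
      rw [h4, smul_eq_C_mul] at h3
      have hu : IsUnit (C (a i₀) : MvPolynomial (Fin (l+1)) K) := (isUnit_iff_ne_zero.2 hi₀).map C
      exact (hu.dvd_mul_left).1 h3
    · intro i _ hi
      rw [h1.1, smul_zero]
      intro hinj
      obtain ⟨s, hs⟩ := (Finite.injective_iff_surjective.1 hJ) i
      have hs0 : s ≠ 0 := by
        rintro rfl
        exact hi (by rw [← hs, hJ0])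
      obtain ⟨t, rfl⟩ := Fin.exists_succ_eq.2 hs0
      have h5 : (Fin.cons i (fun s => J s.succ) : Fin (l+1) → Fin (l+1)) 0 =
          (Fin.cons i (fun s => J s.succ) : Fin (l+1) → Fin (l+1)) t.succ := by
        rw [Fin.cons_zero, Fin.cons_succ, hs]
      exact absurd (hinj h5) (Fin.succ_ne_zero t).symm
    · simp
  by_cases hJ : Function.Injective J
  · obtain ⟨s, hs⟩ := (Finite.injective_iff_surjective.1 hJ) i₀
    by_cases hs0 : s = 0
    · subst hs0
      exact key J hs hJ
    · have h3 := key (J ∘ Equiv.swap 0 s) (by simp [hs]) (hJ.comp (Equiv.injective _))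
      rw [h1.2 J 0 s (fun h => hs0 h.symm)] at h3
      exact (dvd_neg).1 h3
  · rw [h1.1 J hJ]
    exact dvd_zero _

lemma finrank_WW_base (l : ℕ) (A : Finset (Fin l → K)) :
    Module.finrank K (WW (DD A 0) 0) = 1 := by
  have h : WW (DD A 0) 0 = Submodule.span K {fun _ => (1 : MvPolynomial (Fin l) K)} := by
    ext w
    rw [mem_WW, Submodule.mem_span_singleton]
    constructor
    · rintro ⟨_, hw⟩
      have h1 := hw Fin.elim0
      have h1 := h1.totalDegree_le
      rw [Nat.le_zero, totalDegree_eq_zero_iff_eq_C] at h1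
      refine ⟨coeff 0 (w Fin.elim0), ?_⟩
      ext1 J
      have : J = Fin.elim0 := Subsingleton.elim _ _
      subst this
      rw [Pi.smul_apply, smul_eq_C_mul, mul_one]
      exact h1.symm
    · rintro ⟨r, rfl⟩
      refine ⟨trivial, ?_⟩
      intro J
      rw [Pi.smul_apply, smul_eq_C_mul, mul_one]
      exact isHomogeneous_C _ _
  rw [h]
  apply finrank_span_singleton
  intro h0
  have := congrFun h0 Fin.elim0
  simp at this

theorem cc_DD : ∀ (l : ℕ) (A : Finset (Fin (l+1) → K)), (∀ a ∈ A, a ≠ 0) →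
    (∀ a ∈ A, ∀ b ∈ A, a ≠ b → LinearIndependent K ![a, b]) →
    ∀ k, A.card ≤ k → cc (DD A) k = if k = A.card then 1 else 0 := by
  classical
  intro l A
  induction A using Finset.induction_on with
  | empty =>
    intro _ _ k _
    by_cases hk : k = 0
    · subst hk
      rw [if_pos (by simp)]
      simp only [cc, zero_add, Finset.range_one, Finset.sum_singleton, pow_zero, one_mul]
      rw [finrank_WW_base]
      rfl
    · rw [if_neg (by simpa using hk)]
      apply GT (l+1) (opsT K (l+1)) 0 (∅ : Finset (Fin (l+1) → K)).val (by simp) ((l+1 : ℕ) : ℤ) _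
        (sys_DD ∅ (by simp))
      push_cast
      omega
  | insert b A hbA ih =>
    intro h0 hli k hk
    have hb : b ≠ 0 := h0 b (Finset.mem_insert_self b A)
    have hA : ∀ a ∈ A, a ≠ 0 := fun a ha => h0 a (Finset.mem_insert_of_mem ha)
    have hliA : ∀ a ∈ A, ∀ b ∈ A, a ≠ b → LinearIndependent K ![a, b] := fun a ha b hb hab =>
      hli a (Finset.mem_insert_of_mem ha) b (Finset.mem_insert_of_mem hb) hab
    have hAb : ∀ a ∈ A, ∀ c : K, b ≠ c • a := by
      intro a ha c hc
      have hne : a ≠ b := by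
        rintro rfl
        exact hbA ha
      have h1 := hli a (Finset.mem_insert_of_mem ha) b (Finset.mem_insert_self b A) hne
      rw [LinearIndependent.pair_iff] at h1
      have h2 := h1 c (-1) (by rw [hc]; simp)
      have h3 := h2.2
      simp at h3
    rw [Finset.card_insert_of_notMem hbA] at hk ⊢
    obtain ⟨k, rfl⟩ : ∃ k', k = k' + 1 := ⟨k - 1, by omega⟩
    obtain ⟨i₀, hi₀⟩ : ∃ i, b i ≠ 0 := by
      by_contra hcon
      push Not at hcon
      exact hb (funext hcon)
    have hsys := sys_DD (insert b A) h0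
    rw [cc_succ hsys b i₀ hi₀ k, colon_DD A b hb hA hAb, ih hA hliA k (by omega)]
    have hval : (insert b A).val = b ::ₘ A.val := by
      rw [Finset.insert_val_of_notMem hbA]
    rw [hval] at hsys
    have hres := hsys.restrict i₀ (fun j => b (i₀.succAbove j) / b i₀)
    rw [Multiset.map_cons] at hres
    have hz : resC i₀ (fun j => b (i₀.succAbove j) / b i₀) b = 0 := by
      ext1 j
      simp only [resC, Pi.zero_apply]
      rw [mul_div_cancel₀ _ hi₀, sub_self]
    have hres1 := hres.drop_zero hz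
    have hres2 : Sys ((opsT K (l+1)).res i₀ (fun j => b (i₀.succAbove j) / b i₀))
        (A.val.map (resC i₀ (fun j => b (i₀.succAbove j) / b i₀))) (l : ℤ)
        (resN i₀ (fun j => b (i₀.succAbove j) / b i₀) (DD (insert b A))) := by
      refine ⟨hres1.mul, hres1.hom, ?_, hres1.kap, hres1.kk0, hres1.kk, hres1.der, hres1.eps⟩
      intro p hp
      by_cases hp2 : ((l+1 : ℕ) : ℤ) < p
      · exact hres1.top p hp2
      · obtain rfl : p = l + 1 := by push_cast at hp2; omega
        rw [Submodule.eq_bot_iff]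
        rintro _ ⟨w, hw, rfl⟩
        ext1 J
        rw [cw_apply, AlgHom.toLinearMap_apply, Pi.zero_apply, rho_eq_zero_iff' i₀ b hi₀]
        exact dvd_top (insert b A) b (Finset.mem_insert_self b A) i₀ hi₀ w hw J
    have hvan := GT l _ A.card _ (by simp) (l : ℤ) _ hres2 (k+1) (by push_cast; omega)
    rw [hvan, add_zero]
    simp only [add_left_inj]

end Pool.Agent.Lib.P81a4d5
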