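import Mathlib
import Pool.Agent.Lib.P81a4d5.Euler

set_option autoImplicit false
set_option linter.unusedSectionVars false

open MvPolynomial

namespace Pool.Agent.Lib.P81a4d5

variable {K : Type} [Field K]

lemma alt_sum_apply {l p : ℕ} {S ι : Type} [CommRing S] (s : Finset ι)
    (c : ι → (Fin l → S) [⋀^Fin p]→ₗ[S] S) (D : Fin p → Fin l → S) :
    (∑ i ∈ s, c i) D = ∑ i ∈ s, c i D := by
  classical
  induction s using Finset.induction_on with
  | empty => simp
  | insert x s hx ih => rw [Finset.sum_insert hx, Finset.sum_insert hx, AlternatingMap.add_apply, ih]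

/-- the alternating form attached to coefficients on all tuples -/
noncomputable def dext {l m p : ℕ} (c : (Fin p → Fin l) → MvPolynomial (Fin m) K) :
    (Fin l → MvPolynomial (Fin m) K) [⋀^Fin p]→ₗ[MvPolynomial (Fin m) K]
      (MvPolynomial (Fin m) K) :=
  ∑ i : Fin p → Fin l, c i • (Matrix.detRowAlternating (n := Fin p)
    (R := MvPolynomial (Fin m) K)).compLinearMap (LinearMap.pi (fun r => LinearMap.proj (i r)))

lemma dext_apply {l m p : ℕ} (c : (Fin p → Fin l) → MvPolynomial (Fin m) K)
    (D : Fin p → Fin l → MvPolynomial (Fin m) K) :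
    dext c D = ∑ i : Fin p → Fin l, c i * (Matrix.of fun r s => D s (i r)).det := by
  rw [dext, alt_sum_apply]
  simp only [AlternatingMap.smul_apply, smul_eq_mul,
    AlternatingMap.compLinearMap_apply]
  apply Finset.sum_congr rfl
  intro i _
  congr 1
  rw [← Matrix.det_transpose]
  rfl

open Classical in
/-- restriction to the strictly monotone tuples -/
noncomputable def smono {l m p : ℕ} : ((Fin p → Fin l) → MvPolynomial (Fin m) K) →ₗ[K]
    ((Fin p → Fin l) → MvPolynomial (Fin m) K) where
  toFun w := fun i => if StrictMono i then w i else 0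
  map_add' w w' := by
    ext1 i
    simp only [Pi.add_apply]
    split_ifs <;> simp
  map_smul' r w := by
    ext1 i
    simp only [Pi.smul_apply, RingHom.id_apply]
    split_ifs <;> simp

lemma smono_of {l m p : ℕ} (w : (Fin p → Fin l) → MvPolynomial (Fin m) K) (i : Fin p → Fin l)
    (h : StrictMono i) : smono w i = w i := if_pos h

lemma smono_not {l m p : ℕ} (w : (Fin p → Fin l) → MvPolynomial (Fin m) K) (i : Fin p → Fin l)
    (h : ¬ StrictMono i) : smono w i = 0 := if_neg h

/-- evaluation of `dext c` at strictly monotone basis tuples -/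
lemma dext_strict {l m p : ℕ} (c : (Fin p → Fin l) → MvPolynomial (Fin m) K)
    (hc : ∀ i, ¬ StrictMono i → c i = 0) (J : Fin p → Fin l) (hJ : StrictMono J) :
    dext c (fun s => Pi.single (J s) 1) = c J := by
  rw [dext_apply, Finset.sum_eq_single J]
  · have : (Matrix.of fun r s => (Pi.single (J s) (1 : MvPolynomial (Fin m) K) :
        Fin l → MvPolynomial (Fin m) K) (J r)) = (1 : Matrix (Fin p) (Fin p) _) := by
      ext1 r s
      rw [Matrix.of_apply, Pi.single_apply, Matrix.one_apply]
      simp only [hJ.injective.eq_iff]
    rw [this, Matrix.det_one, mul_one]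
  · intro i _ hi
    by_cases him : StrictMono i
    · have hex : ∃ s, ∀ r, i r ≠ J s := by
        by_contra hcon
        push Not at hcon
        apply hi
        have h1 : Set.range J ⊆ Set.range i := by
          rintro _ ⟨s, rfl⟩
          exact hcon s
        have h2 : Set.range J = Set.range i := by
          classical
          have h3 : (Finset.univ.image J) = (Finset.univ.image i) := by
            apply Finset.eq_of_subset_of_card_le
            · intro x hx
              simp only [Finset.mem_image, Finset.mem_univ, true_and] at hx ⊢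
              obtain ⟨s, rfl⟩ := hx
              exact hcon s
            · rw [Finset.card_image_of_injective _ hJ.injective,
                Finset.card_image_of_injective _ him.injective]
          ext x
          have := Finset.ext_iff.1 h3 x
          simpa using this
        exact (him.range_inj hJ).1 h2.symm
      obtain ⟨s, hs⟩ := hex
      rw [Matrix.det_eq_zero_of_column_eq_zero s, mul_zero]
      intro r
      rw [Matrix.of_apply, Pi.single_apply, if_neg (hs r)]
    · rw [hc i him, zero_mul]
  · simp

/-- an alternating extension is determined by the strictly monotone tuples -/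
lemma aext_eq_dext {l m p : ℕ} (w : (Fin p → Fin l) → MvPolynomial (Fin m) K)
    (hw : AltF l p w) : aext w hw = dext (smono w) := by
  apply Module.Basis.ext_alternating (Pi.basisFun (MvPolynomial (Fin m) K) (Fin l))
  intro J hJ
  simp only [Pi.basisFun_apply]
  set σ := Tuple.sort J with hσ
  have hmono : StrictMono (J ∘ σ) :=
    (Tuple.monotone_sort J).strictMono_of_injective (hJ.comp σ.injective)
  have h1 : ∀ g : (Fin l → MvPolynomial (Fin m) K) [⋀^Fin p]→ₗ[MvPolynomial (Fin m) K]
      (MvPolynomial (Fin m) K), g (fun s => Pi.single (J s) 1) =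
        Equiv.Perm.sign σ⁻¹ • g (fun s => Pi.single ((J ∘ σ) s) 1) := by
    intro g
    rw [← AlternatingMap.map_perm]
    congr 1
    ext1 s
    simp
  rw [h1, h1 (dext _)]
  rw [aext_basis, dext_strict _ (fun i hi => smono_not w i hi) _ hmono, smono_of _ _ hmono]

lemma dvd_aext {l m p : ℕ} (w : (Fin (p+1) → Fin l) → MvPolynomial (Fin m) K)
    (hw : AltF l (p+1) w) (a : Fin l → K) (f : MvPolynomial (Fin m) K)
    (h : ∀ J : Fin p → Fin l, f ∣ kv a w J)
    (D : Fin (p+1) → Fin l → MvPolynomial (Fin m) K) (j : Fin (p+1))
    (hj : D j = fun i => C (a i)) : f ∣ aext w hw D := by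
  have key : ∀ D : Fin (p+1) → Fin l → MvPolynomial (Fin m) K, (D 0 = fun i => C (a i)) →
      f ∣ aext w hw D := by
    intro D hD
    rw [aext_apply]
    rw [← (Fin.consEquiv (fun _ : Fin (p+1) => Fin l)).sum_comp, Fintype.sum_prod_type_right]
    apply Finset.dvd_sum
    intro J _
    have h1 : (∑ x : Fin l, w ((Fin.consEquiv (fun _ : Fin (p+1) => Fin l)) (x, J)) *
        ∏ s, D s ((Fin.consEquiv (fun _ : Fin (p+1) => Fin l)) (x, J) s)) =
        kv a w J * ∏ s : Fin p, D s.succ (J s) := by
      rw [kv, Finset.sum_mul]
      apply Finset.sum_congr rfl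
      intro x _
      rw [Fin.prod_univ_succ]
      have h2 : (Fin.consEquiv (fun _ : Fin (p+1) => Fin l)) (x, J) = Fin.cons x J := rfl
      rw [h2]
      simp only [Fin.cons_zero, Fin.cons_succ, hD, smul_eq_C_mul]
      ring
    rw [h1]
    exact (h J).mul_right _
  by_cases hj0 : j = 0
  · subst hj0
    exact key D hj
  · have h1 := key (D ∘ Equiv.swap 0 j) (by simp [hj])
    rw [AlternatingMap.map_swap _ _ (fun h => hj0 h.symm)] at h1
    exact (dvd_neg).1 h1

lemma pderiv_lin {l : ℕ} (a : Fin l → K) (i : Fin l) : pderiv i (lin a) = C (a i) := by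
  rw [lin, map_sum, Finset.sum_eq_single i]
  · rw [pderiv_C_mul, pderiv_X_self, mul_one]
  · intro b _ hb
    rw [pderiv_C_mul, pderiv_X_of_ne hb, mul_zero]
  · simp

/-- the set of coefficient families in the frozen statement -/
def SS {l : ℕ} (A : Finset (Fin l → K)) (p j : ℕ) : Set ((Fin p → Fin l) → MvPolynomial (Fin l) K) :=
  {c : (Fin p → Fin l) → MvPolynomial (Fin l) K |
    (∀ i : Fin p → Fin l, ¬ StrictMono i → c i = 0) ∧
    (∀ i : Fin p → Fin l, (c i).IsHomogeneous j) ∧
    ∀ a ∈ A, ∀ f : Fin p → MvPolynomial (Fin l) K, ∀ j : Fin p,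
      f j = (∑ m : Fin l, MvPolynomial.C (a m) * MvPolynomial.X m) →
      (∑ m : Fin l, MvPolynomial.C (a m) * MvPolynomial.X m) ∣
        ∑ i : Fin p → Fin l,
          c i * (Matrix.of fun r s => MvPolynomial.pderiv (i r) (f s)).det}

lemma SS_eq {l : ℕ} (A : Finset (Fin l → K)) (p j : ℕ) :
    SS A p j = ((WW (DD A p) j).map smono : Submodule K _) := by
  have hdet : ∀ (c : (Fin p → Fin l) → MvPolynomial (Fin l) K) (f : Fin p → MvPolynomial (Fin l) K),
      ∑ i : Fin p → Fin l, c i * (Matrix.of fun r s => MvPolynomial.pderiv (i r) (f s)).det =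
        dext c (fun s i => pderiv i (f s)) := by
    intro c f
    rw [dext_apply]
  ext c
  constructor
  · rintro ⟨h1, h2, h3⟩
    refine ⟨fun J => dext c (fun s => Pi.single (J s) 1), ⟨?_, ?_⟩, ?_⟩
    · have halt : AltF l p (fun J => dext c (fun s => Pi.single (J s) 1)) :=
        altF_of_map (dext c) _ (fun _ => rfl)
      cases p with
      | zero => trivial
      | succ p =>
        refine ⟨halt, ?_⟩
        intro a ha J
        have h4 := h3 a ha (Fin.cons (lin a) (fun s => X (J s))) 0 (by rw [Fin.cons_zero]; rfl)
        rw [hdet] at h4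
        have h5 : kv a (fun J => dext c (fun s => Pi.single (J s) 1)) J =
            dext c (fun s i => pderiv i ((Fin.cons (lin a) (fun s => X (J s)) :
              Fin (p+1) → MvPolynomial (Fin l) K) s)) := by
          have h6 : (fun (s : Fin (p+1)) i => pderiv i ((Fin.cons (lin a) (fun s => X (J s)) :
              Fin (p+1) → MvPolynomial (Fin l) K) s)) =
              Fin.cons (∑ i, (C (a i) : MvPolynomial (Fin l) K) •
                (Pi.single i 1 : Fin l → MvPolynomial (Fin l) K))
                (fun s => Pi.single (J s) 1) := by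
            ext1 s
            refine Fin.cases ?_ ?_ s
            · rw [Fin.cons_zero]
              ext1 i
              rw [Fin.cons_zero, pderiv_lin, Finset.sum_apply, Finset.sum_eq_single i]
              · simp
              · intro b _ hb
                rw [Pi.smul_apply, Pi.single_apply, if_neg (fun h => hb h.symm), smul_zero]
              · simp
            · intro s
              rw [Fin.cons_succ]
              ext1 i
              rw [Fin.cons_succ, pderiv_X]
              simp only [Pi.single_apply]
              simp only [eq_comm]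
          rw [h6]
          have h8 : ∀ v : Fin l → MvPolynomial (Fin l) K,
              dext c (Fin.cons v (fun s => Pi.single (J s) 1)) =
              (dext c).curryLeft v (fun s => Pi.single (J s) 1) := fun v => rfl
          rw [h8, map_sum, alt_sum_apply, kv]
          apply Finset.sum_congr rfl
          intro i _
          rw [map_smul, AlternatingMap.smul_apply, ← h8, smul_eq_C_mul, smul_eq_mul]
          congr 2
          ext1 s
          refine Fin.cases ?_ ?_ s
          · rw [Fin.cons_zero, Fin.cons_zero]
          · intro s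
            rw [Fin.cons_succ, Fin.cons_succ]
        rw [h5]
        exact h4
    · intro J
      show (dext c (fun s => Pi.single (J s) 1)).IsHomogeneous j
      rw [dext_apply]
      apply IsHomogeneous.sum
      intro i _
      have h4 : ((Matrix.of fun r s => (Pi.single (J s) (1 : MvPolynomial (Fin l) K) :
        Fin l → MvPolynomial (Fin l) K) (i r)).det).IsHomogeneous 0 := by
        rw [Matrix.det_apply]
        apply IsHomogeneous.sum
        intro σ _
        rw [Units.smul_def, zsmul_eq_mul]
        have h5 : ((((Equiv.Perm.sign σ : ℤˣ) : ℤ) : MvPolynomial (Fin l) K)).IsHomogeneous 0 := by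
          have : ((((Equiv.Perm.sign σ : ℤˣ) : ℤ) : MvPolynomial (Fin l) K)) =
            C (((Equiv.Perm.sign σ : ℤˣ) : ℤ) : K) := by simp
          rw [this]
          exact isHomogeneous_C _ _
        have h6 : (∏ r, (Matrix.of fun r s => (Pi.single (J s) (1 : MvPolynomial (Fin l) K) :
            Fin l → MvPolynomial (Fin l) K) (i r)) (σ r) r).IsHomogeneous (∑ r : Fin p, 0) := by
          apply IsHomogeneous.prod
          intro r _
          rw [Matrix.of_apply, Pi.single_apply]
          split_ifs
          · exact isHomogeneous_one _ _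
          · exact isHomogeneous_zero _ _ _
        rw [Finset.sum_const_zero] at h6
        exact h5.mul h6
      have := (h2 i).mul h4
      rwa [add_zero] at this
    · ext1 i
      by_cases hi : StrictMono i
      · rw [smono_of _ _ hi]
        exact dext_strict c h1 i hi
      · rw [smono_not _ _ hi, h1 i hi]
  · rintro ⟨w, ⟨hw1, hw2⟩, rfl⟩
    refine ⟨fun i hi => smono_not w i hi, ?_, ?_⟩
    · intro i
      by_cases hi : StrictMono i
      · rw [smono_of _ _ hi]
        exact hw2 i
      · rw [smono_not _ _ hi]
        exact isHomogeneous_zero _ _ _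
    · intro a ha f s hs
      rw [hdet, ← aext_eq_dext w (altF_of_mem hw1)]
      cases p with
      | zero => exact Fin.elim0 s
      | succ p =>
        apply dvd_aext w _ a _ (fun J => (mem_DD_succ.1 hw1).2 a ha J) _ s
        ext1 i
        show pderiv i (f s) = C (a i)
        rw [hs]
        exact pderiv_lin a i

lemma finrank_SS {l : ℕ} (A : Finset (Fin l → K)) (p j : ℕ) :
    Module.finrank K (Submodule.span K (SS A p j)) = Module.finrank K (WW (DD A p) j) := by
  rw [SS_eq, Submodule.span_eq, finrank_split (WW (DD A p) j) smono]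
  have : (WW (DD A p) j) ⊓ LinearMap.ker (smono (K := K) (l := l) (m := l) (p := p)) = ⊥ := by
    rw [Submodule.eq_bot_iff]
    rintro w ⟨⟨hw1, hw2⟩, hw3⟩
    have halt := altF_of_mem hw1
    ext1 J
    rw [← aext_basis w halt J, aext_eq_dext w halt, show smono w = 0 from hw3, dext_apply]
    simp
  rw [this, finrank_bot, add_zero]

/-- the sum of the frozen statement -/
theorem frozen_sum {l : ℕ} (A : Finset (Fin l → K)) (hA : ∀ a ∈ A, a ≠ 0) (n : ℕ) :
    (∑ p ∈ Finset.range (l + 1), if p ≤ n then
      (-1 : ℤ) ^ p * ((Module.finrank K (Submodule.span K (SS A p (n - p))) : ℕ) : ℤ) else 0) =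
      cc (DD A) n := by
  rw [cc, ← Finset.sum_filter]
  simp only [finrank_SS]
  apply Finset.sum_subset_zero_on_sdiff
  · intro p hp
    simp only [Finset.mem_filter, Finset.mem_range] at hp ⊢
    omega
  · intro p hp
    simp only [Finset.mem_sdiff, Finset.mem_filter, Finset.mem_range, not_and, not_le] at hp
    have hlp : (l : ℤ) < p := by
      by_contra hcon
      have := hp.2 (by omega)
      omega
    rw [WW, (sys_DD A hA).top p hlp, bot_inf_eq, finrank_bot]
    simp
  · intro p _
    rfl

end Pool.Agent.Lib.P81a4d5
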